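import Mathlib

set_option autoImplicit false

namespace Pool.Agent.H912R2.Levi

abbrev F := ZMod 3

instance : Fact (Nat.Prime 3) := ⟨by norm_num⟩

/-- Triangular matrices `[[1, a, z], [0, e, b], [0, 0, 1]]`. -/
@[ext]
structure Tri {A B Z : Type} [AddCommGroup A] [Module F A] [AddCommGroup B] [Module F B]
    [AddCommGroup Z] [Module F Z] (m : A →ₗ[F] B →ₗ[F] Z) where
  e : Fˣ
  a : A
  b : B
  z : Z

variable {A B Z : Type} [AddCommGroup A] [Module F A] [AddCommGroup B] [Module F B]
    [AddCommGroup Z] [Module F Z] {m : A →ₗ[F] B →ₗ[F] Z}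

namespace Tri

instance : Mul (Tri m) :=
  ⟨fun g h => ⟨g.e * h.e, h.a + (h.e : F) • g.a, g.b + (g.e : F) • h.b, g.z + h.z + m g.a h.b⟩⟩
instance : One (Tri m) := ⟨⟨1, 0, 0, 0⟩⟩
instance : Inv (Tri m) :=
  ⟨fun g => ⟨g.e⁻¹, -((g.e⁻¹ : Fˣ) : F) • g.a, -((g.e⁻¹ : Fˣ) : F) • g.b,
    -g.z + ((g.e⁻¹ : Fˣ) : F) • m g.a g.b⟩⟩

@[simp] theorem mul_e (g h : Tri m) : (g * h).e = g.e * h.e := rfl
@[simp] theorem mul_a (g h : Tri m) : (g * h).a = h.a + (h.e : F) • g.a := rfl
@[simp] theorem mul_b (g h : Tri m) : (g * h).b = g.b + (g.e : F) • h.b := rfl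
@[simp] theorem mul_z (g h : Tri m) : (g * h).z = g.z + h.z + m g.a h.b := rfl
@[simp] theorem one_e : (1 : Tri m).e = 1 := rfl
@[simp] theorem one_a : (1 : Tri m).a = 0 := rfl
@[simp] theorem one_b : (1 : Tri m).b = 0 := rfl
@[simp] theorem one_z : (1 : Tri m).z = 0 := rfl
@[simp] theorem inv_e (g : Tri m) : (g⁻¹).e = g.e⁻¹ := rfl
@[simp] theorem inv_a (g : Tri m) : (g⁻¹).a = -((g.e⁻¹ : Fˣ) : F) • g.a := rfl
@[simp] theorem inv_b (g : Tri m) : (g⁻¹).b = -((g.e⁻¹ : Fˣ) : F) • g.b := rfl
@[simp] theorem inv_z (g : Tri m) :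
    (g⁻¹).z = -g.z + ((g.e⁻¹ : Fˣ) : F) • m g.a g.b := rfl

instance : Group (Tri m) :=
  Group.ofLeftAxioms
    (by
      intro g h k
      ext1
      · simp [mul_assoc]
      · simp [smul_add, mul_smul, add_assoc]
        rw [smul_comm]
      · simp [smul_add, mul_smul, add_assoc]
      · simp
        abel)
    (by intro g; ext1 <;> simp)
    (by
      intro g
      have h1 : ((g.e : F)) * ((g.e⁻¹ : Fˣ) : F) = 1 := Units.mul_inv g.e
      have h2 : ((g.e⁻¹ : Fˣ) : F) * (g.e : F) = 1 := Units.inv_mul g.e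
      ext1
      · rw [mul_e, inv_e, one_e, inv_mul_cancel]
      · rw [mul_a, inv_a, one_a, neg_smul, smul_neg, smul_smul, h1, one_smul, add_neg_cancel]
      · rw [mul_b, inv_b, inv_e, one_b, neg_smul, neg_add_cancel]
      · rw [mul_z, inv_z, inv_a, one_z, neg_smul, map_neg, map_smul, LinearMap.neg_apply,
          LinearMap.smul_apply]
        abel)

end Tri


/-- The finite group `H` of order `54`. -/
abbrev H : Type := Tri (LinearMap.mul F F)

instance : Finite H := by
  have : Function.Injective (fun g : H => (g.e, g.a, g.b, g.z)) := by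
    intro g h hgh
    simp only [Prod.mk.injEq] at hgh
    ext1
    exacts [hgh.1, hgh.2.1, hgh.2.2.1, hgh.2.2.2]
  exact Finite.of_injective _ this

section big

variable (L : Type) [Field L] [Algebra F L]

/-- The multiplications, inside the endomorphisms of `L`. -/
noncomputable def mults : Submodule F (Module.End F L) := LinearMap.range (Algebra.lmul F L).toLinearMap

abbrev ZZ : Type := Module.End F L ⧸ mults L

/-- `(x, φ) ↦` the class of `y ↦ φ y • x`. -/
noncomputable def bm : L →ₗ[F] Module.Dual F L →ₗ[F] ZZ L :=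
  LinearMap.mk₂ F (fun x φ => (mults L).mkQ (φ.smulRight x))
    (by intro x y φ; rw [← map_add]; congr 1; ext; simp)
    (by intro c x φ; rw [← map_smul]; congr 1; ext; simp; exact smul_comm _ _ _)
    (by intro x φ ψ; rw [← map_add]; congr 1; ext; simp [add_smul])
    (by intro c x φ; rw [← map_smul]; congr 1; ext; simp [mul_smul])

theorem bm_apply (x : L) (φ : Module.Dual F L) : bm L x φ = (mults L).mkQ (φ.smulRight x) := rfl

abbrev G : Type := Tri (bm L)

/-- The subgroup of elements with `a` in `U`. -/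
noncomputable def sub (U : Submodule F L) : Subgroup (G L) where
  carrier := {g | g.a ∈ U}
  mul_mem' := by
    intro g h hg hh
    exact U.add_mem hh (U.smul_mem _ hg)
  one_mem' := U.zero_mem
  inv_mem' := by
    intro g hg
    exact U.smul_mem _ hg

/-- A homomorphism to `H` from compatible functionals. -/
noncomputable def toH (U : Submodule F L) (α : U →ₗ[F] F) (β : Module.Dual F L →ₗ[F] F)
    (ζ : ZZ L →ₗ[F] F) (h : ∀ (x : U) (φ : Module.Dual F L), ζ (bm L x φ) = α x * β φ) :
    sub L U →* H where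
  toFun g := ⟨g.1.e, α ⟨g.1.a, g.2⟩, β g.1.b, ζ g.1.z⟩
  map_one' := by
    ext1
    · rfl
    · exact map_zero α
    · exact map_zero β
    · exact map_zero ζ
  map_mul' := by
    intro g k
    ext1
    · rfl
    · show α _ = α _ + (k.1.e : F) • α _
      rw [← map_smul, ← map_add]
      rfl
    · show β _ = β _ + (g.1.e : F) • β _
      rw [← map_smul, ← map_add]
      rfl
    · show ζ _ = ζ _ + ζ _ + α _ * β _
      rw [← h, ← map_add, ← map_add]
      rfl


/-- Operators with range in `U`. -/
def opsInto (U : Submodule F L) : Submodule F (Module.End F L) where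
  carrier := {T | ∀ y, T y ∈ U}
  add_mem' := fun {S T} hS hT y => U.add_mem (hS y) (hT y)
  zero_mem' := fun y => U.zero_mem
  smul_mem' := fun c T hT y => U.smul_mem c (hT y)

theorem opsInto_mults {U : Submodule F L} (hU : U ≠ ⊤) {T : Module.End F L}
    (h1 : T ∈ opsInto L U) (h2 : T ∈ mults L) : T = 0 := by
  obtain ⟨c, rfl⟩ := h2
  by_cases hc : c = 0
  · rw [hc, map_zero]
  · exfalso
    apply hU
    rw [eq_top_iff]
    intro y _
    have := h1 (c⁻¹ * y)
    have h3 : (Algebra.lmul F L).toLinearMap c (c⁻¹ * y) = y := by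
      show c * (c⁻¹ * y) = y
      rw [← mul_assoc, mul_inv_cancel₀ hc, one_mul]
    rwa [h3] at this

theorem separate {U : Submodule F L} (hU : U ≠ ⊤) (g : sub L U) (hg : g ≠ 1) :
    ∃ f : sub L U →* H, f g ≠ 1 := by
  by_cases he : g.1.e = 1
  swap
  · refine ⟨toH L U 0 0 0 (by intros; simp), fun h => he ?_⟩
    exact congrArg Tri.e h
  by_cases ha : g.1.a = 0
  swap
  · have : (⟨g.1.a, g.2⟩ : U) ≠ 0 := fun h => ha (congrArg Subtype.val h)
    obtain ⟨α, hα⟩ : ∃ α : Module.Dual F U, α ⟨g.1.a, g.2⟩ ≠ 0 := by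
      by_contra hcon
      push Not at hcon
      exact this ((Module.forall_dual_apply_eq_zero_iff F _).1 hcon)
    refine ⟨toH L U α 0 0 (by intros; simp), fun h => hα ?_⟩
    exact congrArg Tri.a h
  by_cases hb : g.1.b = 0
  swap
  · obtain ⟨β, hβ⟩ : ∃ β : Module.Dual F (Module.Dual F L), β g.1.b ≠ 0 := by
      by_contra hcon
      push Not at hcon
      exact hb ((Module.forall_dual_apply_eq_zero_iff F _).1 hcon)
    refine ⟨toH L U 0 β 0 (by intros; simp), fun h => hβ ?_⟩
    exact congrArg Tri.b h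
  have hz : g.1.z ≠ 0 := by
    intro hz
    apply hg
    apply Subtype.ext
    ext1 <;> assumption
  -- the image of the operators into `U`
  by_cases hzY : g.1.z ∈ (opsInto L U).map (mults L).mkQ
  swap
  · obtain ⟨ζ, hζ1, hζ2⟩ := Submodule.exists_le_ker_of_notMem hzY
    refine ⟨toH L U 0 0 ζ ?_, fun h => hζ1 ?_⟩
    · intro x φ
      have : bm L x φ ∈ (opsInto L U).map (mults L).mkQ := by
        refine ⟨φ.smulRight (x : L), ?_, rfl⟩
        intro y
        exact U.smul_mem _ x.2
      have := hζ2 this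
      rw [LinearMap.mem_ker] at this
      rw [this]
      simp
    · exact congrArg Tri.z h
  · obtain ⟨T, hT, hTz⟩ := hzY
    have hT0 : T ≠ 0 := by
      rintro rfl
      apply hz
      rw [← hTz, map_zero]
    obtain ⟨y, hy⟩ : ∃ y, T y ≠ 0 := by
      by_contra hcon
      push Not at hcon
      exact hT0 (LinearMap.ext hcon)
    obtain ⟨α, hα⟩ : ∃ α : Module.Dual F L, α (T y) ≠ 0 := by
      by_contra hcon
      push Not at hcon
      exact hy ((Module.forall_dual_apply_eq_zero_iff F _).1 hcon)
    -- the functional `T ↦ α (T y)` on the operators into `U`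
    let ι : opsInto L U →ₗ[F] ZZ L := (mults L).mkQ.comp (opsInto L U).subtype
    have hι : LinearMap.ker ι = ⊥ := by
      rw [LinearMap.ker_eq_bot']
      intro S hS
      have : (S : Module.End F L) ∈ mults L := by
        have h2 : (mults L).mkQ (S : Module.End F L) = 0 := hS
        rwa [Submodule.mkQ_apply, Submodule.Quotient.mk_eq_zero] at h2
      exact Subtype.ext (opsInto_mults L hU S.2 this)
    obtain ⟨ρ, hρ⟩ := LinearMap.exists_leftInverse_of_injective ι hι
    let ev : opsInto L U →ₗ[F] F :=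
      { toFun := fun S => α ((S : Module.End F L) y)
        map_add' := by intro S T; simp
        map_smul' := by intro c T; simp }
    have hev : ∀ S : opsInto L U, ev (ρ (ι S)) = α ((S : Module.End F L) y) := by
      intro S
      have : ρ (ι S) = S := by
        have := LinearMap.congr_fun hρ S
        simpa using this
      rw [this]
      rfl
    refine ⟨toH L U (α.comp U.subtype) (Module.Dual.eval F L y) (ev.comp ρ) ?_, fun h => hα ?_⟩
    · intro x φ
      have hmem : φ.smulRight (x : L) ∈ opsInto L U := fun y => U.smul_mem _ x.2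
      have h1 : bm L x φ = ι ⟨φ.smulRight (x : L), hmem⟩ := rfl
      rw [LinearMap.comp_apply, h1, hev]
      show α (φ y • (x : L)) = α x * φ y
      rw [map_smul, smul_eq_mul, mul_comm]
    · have h1 : ev (ρ g.1.z) = 0 := congrArg Tri.z h
      have h2 : g.1.z = ι ⟨T, hT⟩ := hTz.symm
      rw [h2, hev] at h1
      exact h1


/-- `sub L U` is in the Levi class. -/
theorem sub_levi {U : Submodule F L} (hU : U ≠ ⊤) (a : sub L U) :
    ∃ (I : Type) (φ : (Subgroup.normalClosure ({a} : Set (sub L U))) →* (I → H)),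
      Function.Injective φ := by
  refine ⟨sub L U →* H,
    { toFun := fun g f => f g.1
      map_one' := by funext f; exact map_one f
      map_mul' := by intro g h; funext f; exact map_mul f _ _ }, ?_⟩
  rw [injective_iff_map_eq_one]
  intro g hg
  by_contra hne
  have : g.1 ≠ 1 := fun h => hne (Subtype.ext h)
  obtain ⟨f, hf⟩ := separate L hU g.1 this
  exact hf (congrFun hg f)

/-- quasi-identities in fewer variables than the degree which hold in the groups `sub L U` hold in
the whole group. -/
theorem quasi {n : ℕ} (hn : n < Module.finrank F L) (prem : List (FreeGroup (Fin n)))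
    (concl : FreeGroup (Fin n))
    (h : ∀ U : Submodule F L, U ≠ ⊤ → ∀ f : Fin n → sub L U,
      (∀ p ∈ prem, FreeGroup.lift f p = 1) → FreeGroup.lift f concl = 1) :
    ∀ f : Fin n → G L, (∀ p ∈ prem, FreeGroup.lift f p = 1) → FreeGroup.lift f concl = 1 := by
  intro f hf
  let U : Submodule F L := Submodule.span F (Set.range fun i => (f i).a)
  have hU : U ≠ ⊤ := by
    intro hU
    have h1 : Module.finrank F U ≤ n := by
      have := finrank_range_le_card (R := F) (fun i => (f i).a)
      rw [Fintype.card_fin] at this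
      exact this
    rw [hU, finrank_top] at h1
    omega
  let f' : Fin n → sub L U := fun i => ⟨f i, Submodule.subset_span ⟨i, rfl⟩⟩
  have key : ∀ w : FreeGroup (Fin n), ((FreeGroup.lift f' w : sub L U) : G L) = FreeGroup.lift f w := by
    intro w
    have : ((sub L U).subtype.comp (FreeGroup.lift f')) = FreeGroup.lift f := by
      ext i
      all_goals simp [f']
    exact DFunLike.congr_fun this w
  have h2 := h U hU f' (by
    intro p hp
    apply Subtype.ext
    rw [key]
    exact hf p hp)
  rw [← key, h2]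
  rfl


/-! ### The whole group is not in the Levi class -/

/-- the element whose normal closure is everything -/
noncomputable def tt : G L := ⟨-1, 0, 0, 0⟩

noncomputable def X (x : L) : G L := ⟨1, x, 0, 0⟩
noncomputable def Y (φ : Module.Dual F L) : G L := ⟨1, 0, φ, 0⟩
noncomputable def W (z : ZZ L) : G L := ⟨1, 0, 0, z⟩

noncomputable abbrev NN : Subgroup (G L) := Subgroup.normalClosure {tt L}

theorem X_add (x y : L) : X L (x + y) = X L x * X L y := by
  ext1
  · simp [X]
  · show x + y = y + ((1 : Fˣ) : F) • x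
    rw [Units.val_one, one_smul, add_comm]
  · simp [X]
  · simp [X]

theorem Y_add (x y : Module.Dual F L) : Y L (x + y) = Y L x * Y L y := by
  ext1
  · simp [Y]
  · simp [Y]
  · show x + y = x + ((1 : Fˣ) : F) • y
    rw [Units.val_one, one_smul]
  · simp [Y]

theorem W_add (x y : ZZ L) : W L (x + y) = W L x * W L y := by
  ext1
  · simp [W]
  · simp [W]
  · simp [W]
  · simp [W]

theorem W_zero : W L 0 = 1 := rfl

theorem three {V : Type} [AddCommGroup V] [Module F V] (x : V) : x = -x + -x := by
  have h : (3 : F) • x = 0 := by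
    have : (3 : F) = 0 := by decide
    rw [this, zero_smul]
  have h2 : (3 : F) • x = x + x + x := by
    have : (3 : F) = 1 + 1 + 1 := by decide
    rw [this, add_smul, add_smul, one_smul]
  rw [h2] at h
  have : x - (-x + -x) = x + x + x := by abel
  exact sub_eq_zero.1 (this.trans h)

theorem X_mem (x : L) : X L x ∈ NN L := by
  have h0 : tt L ∈ NN L := Subgroup.subset_normalClosure rfl
  have h1 : X L (-x) * tt L * (X L (-x))⁻¹ * (tt L)⁻¹ ∈ NN L :=
    Subgroup.mul_mem _ (Subgroup.normalClosure_normal.conj_mem _ h0 _) (Subgroup.inv_mem _ h0)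
  have h2 : X L (-x) * tt L * (X L (-x))⁻¹ * (tt L)⁻¹ = X L x := by
    ext1
    · simp [X, tt]
    · simp [X, tt]
      exact (three x).symm
    · simp [X, tt]
    · simp [X, tt]
  rwa [h2] at h1

theorem Y_mem (x : Module.Dual F L) : Y L x ∈ NN L := by
  have h0 : tt L ∈ NN L := Subgroup.subset_normalClosure rfl
  have h1 : Y L (-x) * tt L * (Y L (-x))⁻¹ * (tt L)⁻¹ ∈ NN L :=
    Subgroup.mul_mem _ (Subgroup.normalClosure_normal.conj_mem _ h0 _) (Subgroup.inv_mem _ h0)
  have h2 : Y L (-x) * tt L * (Y L (-x))⁻¹ * (tt L)⁻¹ = Y L x := by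
    ext1
    · simp [Y, tt]
    · simp [Y, tt]
    · simp [Y, tt]
      exact (three x).symm
    · simp [Y, tt]
  rwa [h2] at h1

theorem XY (x : L) (φ : Module.Dual F L) : X L x * Y L φ = Y L φ * X L x * W L (bm L x φ) := by
  ext1
  · simp [X, Y, W]
  · simp [X, Y, W]
  · simp [X, Y, W]
  · simp [X, Y, W]


theorem usq (u : Fˣ) : u * u = 1 := by
  revert u
  decide

noncomputable def X' (x : L) : NN L := ⟨X L x, X_mem L x⟩
noncomputable def Y' (x : Module.Dual F L) : NN L := ⟨Y L x, Y_mem L x⟩

theorem X'_add (x y : L) : X' L (x + y) = X' L x * X' L y := Subtype.ext (X_add L x y)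
theorem Y'_add (x y : Module.Dual F L) : Y' L (x + y) = Y' L x * Y' L y := Subtype.ext (Y_add L x y)

variable {L}
variable (f : NN L →* H)

theorem fX_e (x : L) : (f (X' L x)).e = 1 := by
  rw [three x, X'_add, map_mul]
  exact usq _

theorem fY_e (x : Module.Dual F L) : (f (Y' L x)).e = 1 := by
  rw [three x, Y'_add, map_mul]
  exact usq _

theorem fX_a (x y : L) : (f (X' L (x + y))).a = (f (X' L x)).a + (f (X' L y)).a := by
  rw [X'_add, map_mul, Tri.mul_a, fX_e, Units.val_one, one_smul, add_comm]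

theorem fX_b (x y : L) : (f (X' L (x + y))).b = (f (X' L x)).b + (f (X' L y)).b := by
  rw [X'_add, map_mul, Tri.mul_b, fX_e, Units.val_one, one_smul]

theorem fY_a (x y : Module.Dual F L) :
    (f (Y' L (x + y))).a = (f (Y' L x)).a + (f (Y' L y)).a := by
  rw [Y'_add, map_mul, Tri.mul_a, fY_e, Units.val_one, one_smul, add_comm]

theorem fY_b (x y : Module.Dual F L) :
    (f (Y' L (x + y))).b = (f (Y' L x)).b + (f (Y' L y)).b := by
  rw [Y'_add, map_mul, Tri.mul_b, fY_e, Units.val_one, one_smul]

/-- an additive map to `F` as a linear map -/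
def lin {V : Type} [AddCommGroup V] [Module F V] (g : V → F) (hg : ∀ x y, g (x + y) = g x + g y) :
    V →ₗ[F] F :=
  AddMonoidHom.toZModLinearMap 3 (AddMonoidHom.mk' g hg)

noncomputable def al : L →ₗ[F] F := lin (fun x => (f (X' L x)).a) (fX_a f)
noncomputable def al' : L →ₗ[F] F := lin (fun x => (f (X' L x)).b) (fX_b f)
noncomputable def be : Module.Dual F L →ₗ[F] F := lin (fun x => (f (Y' L x)).a) (fY_a f)
noncomputable def be' : Module.Dual F L →ₗ[F] F := lin (fun x => (f (Y' L x)).b) (fY_b f)

theorem isotropic (x y : L) : al f x * al' f y = al f y * al' f x := by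
  have h : X' L x * X' L y = X' L y * X' L x := by
    rw [← X'_add, ← X'_add, add_comm]
  have h2 := congrArg Tri.z (congrArg f h)
  rw [map_mul, map_mul, Tri.mul_z, Tri.mul_z, add_comm (f (X' L x)).z] at h2
  exact add_left_cancel h2

/-- the predicate: `f` maps `W z` to the central element `d` -/
def P (z : ZZ L) (d : F) : Prop := ∃ h : W L z ∈ NN L, f ⟨W L z, h⟩ = ⟨1, 0, 0, d⟩

theorem P_zero : P f 0 0 := ⟨Subgroup.one_mem _, map_one f⟩

theorem P_add {z z' : ZZ L} {d d' : F} (h : P f z d) (h' : P f z' d') : P f (z + z') (d + d') := by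
  obtain ⟨h1, h2⟩ := h
  obtain ⟨h1', h2'⟩ := h'
  have h3 : W L (z + z') ∈ NN L := by rw [W_add]; exact Subgroup.mul_mem _ h1 h1'
  refine ⟨h3, ?_⟩
  have h4 : (⟨W L (z + z'), h3⟩ : NN L) = ⟨W L z, h1⟩ * ⟨W L z', h1'⟩ := Subtype.ext (W_add L z z')
  rw [h4, map_mul, h2, h2']
  ext1 <;> simp

theorem P_sum {ι : Type} (s : Finset ι) (z : ι → ZZ L) (d : ι → F) (h : ∀ i ∈ s, P f (z i) (d i)) :
    P f (∑ i ∈ s, z i) (∑ i ∈ s, d i) := by
  classical
  induction s using Finset.induction_on with
  | empty => exact P_zero f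
  | insert a s ha ih =>
    rw [Finset.sum_insert ha, Finset.sum_insert ha]
    exact P_add f (h a (Finset.mem_insert_self _ _))
      (ih fun i hi => h i (Finset.mem_insert_of_mem hi))

theorem P_bm (x : L) (φ : Module.Dual F L) :
    P f (bm L x φ) (al f x * be' f φ - be f φ * al' f x) := by
  have h0 : W L (bm L x φ) = ((Y' L φ * X' L x)⁻¹ * (X' L x * Y' L φ) : NN L) := by
    show _ = (Y L φ * X L x)⁻¹ * (X L x * Y L φ)
    rw [XY, inv_mul_cancel_left]
  have h1 : W L (bm L x φ) ∈ NN L := by rw [h0]; exact Subtype.property _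
  refine ⟨h1, ?_⟩
  have h2 : (⟨W L (bm L x φ), h1⟩ : NN L) = (Y' L φ * X' L x)⁻¹ * (X' L x * Y' L φ) :=
    Subtype.ext h0
  have e1 := fX_e f x
  have e2 := fY_e f φ
  rw [h2, map_mul, map_inv, map_mul, map_mul]
  have a1 : al f x = (f (X' L x)).a := rfl
  have a2 : al' f x = (f (X' L x)).b := rfl
  have a3 : be f φ = (f (Y' L φ)).a := rfl
  have a4 : be' f φ = (f (Y' L φ)).b := rfl
  rw [a1, a2, a3, a4]
  generalize f (X' L x) = g at *
  generalize f (Y' L φ) = k at *
  obtain ⟨e, a, b, z⟩ := g
  obtain ⟨e', a', b', z'⟩ := k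
  simp only at e1 e2
  subst e1 e2
  ext1
  · simp
  · simp
    ring
  · simp
    ring
  · simp
    ring


theorem P_inj {z : ZZ L} {d d' : F} (h : P f z d) (h' : P f z d') : d = d' := by
  obtain ⟨h1, h2⟩ := h
  obtain ⟨h1', h2'⟩ := h'
  exact congrArg Tri.z (h2.symm.trans h2')

theorem vanish [FiniteDimensional F L] (x₀ : L) (φ₀ : Module.Dual F L) :
    al f x₀ * be' f φ₀ - be f φ₀ * al' f x₀ = 0 := by
  classical
  let b := Module.finBasis F L
  let v : L := ∑ i, be f (b.coord i) • b i
  let v' : L := ∑ i, be' f (b.coord i) • b i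
  have hφ : ∀ φ : Module.Dual F L, φ = ∑ i, φ (b i) • b.coord i := by
    intro φ
    refine b.ext fun j => ?_
    simp [Finsupp.single_apply]
  have hv : ∀ φ : Module.Dual F L, be f φ = φ v := by
    intro φ
    conv_lhs => rw [hφ φ]
    simp only [v, map_sum, map_smul, smul_eq_mul]
    exact Finset.sum_congr rfl fun i _ => mul_comm _ _
  have hv' : ∀ φ : Module.Dual F L, be' f φ = φ v' := by
    intro φ
    conv_lhs => rw [hφ φ]
    simp only [v', map_sum, map_smul, smul_eq_mul]
    exact Finset.sum_congr rfl fun i _ => mul_comm _ _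
  have key : ∀ c : L, al f (c * v') = al' f (c * v) := by
    intro c
    have h1 : ∑ i, bm L (c * b i) (b.coord i) = 0 := by
      simp only [bm_apply]
      rw [← map_sum, Submodule.mkQ_apply, Submodule.Quotient.mk_eq_zero]
      refine ⟨c, ?_⟩
      ext y
      simp only [LinearMap.coe_sum, Finset.sum_apply, LinearMap.smulRight_apply]
      show c * y = _
      conv_lhs => rw [← b.sum_repr y]
      rw [Finset.mul_sum]
      refine Finset.sum_congr rfl fun i _ => ?_
      rw [mul_smul_comm]
      rfl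
    have h2 := P_sum f Finset.univ _ _ (fun i _ => P_bm f (c * b i) (b.coord i))
    rw [h1] at h2
    have h3 := P_inj f h2 (P_zero f)
    rw [Finset.sum_sub_distrib, sub_eq_zero] at h3
    simp only [v, v', Finset.mul_sum, map_sum, mul_smul_comm, map_smul, smul_eq_mul]
    rw [← h3]
    exact Finset.sum_congr rfl fun i _ => mul_comm _ _
  rw [hv, hv']
  by_cases h0 : ∀ y, al f y = 0
  · rw [h0, zero_mul, zero_sub, neg_eq_zero]
    by_cases hv0 : v = 0
    · rw [hv0, map_zero, zero_mul]
    · have := key (x₀ * v⁻¹)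
      rw [h0, mul_assoc, inv_mul_cancel₀ hv0, mul_one] at this
      rw [← this, mul_zero]
  · push Not at h0
    obtain ⟨y, hy⟩ := h0
    let t : F := al' f y / al f y
    have ht : ∀ x, al' f x = t * al f x := by
      intro x
      have := isotropic f x y
      simp only [t]
      rw [div_mul_eq_mul_div, eq_div_iff hy, mul_comm, ← this, mul_comm]
    have h1 : ∀ c : L, al f (c * (v' - t • v)) = 0 := by
      intro c
      rw [mul_sub, map_sub, key, ht, mul_smul_comm, map_smul, smul_eq_mul, sub_self]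
    have h2 : al f x₀ * φ₀ v' - φ₀ v * al' f x₀ = al f x₀ * φ₀ (v' - t • v) := by
      rw [ht, map_sub, map_smul, smul_eq_mul]
      ring
    rw [h2]
    by_cases h3 : v' - t • v = 0
    · rw [h3, map_zero, mul_zero]
    · have := h1 (x₀ * (v' - t • v)⁻¹)
      rw [mul_assoc, inv_mul_cancel₀ h3, mul_one] at this
      rw [this, zero_mul]

theorem exists_bm_ne_zero (h2 : 1 < Module.finrank F L) [FiniteDimensional F L] :
    ∃ (x : L) (φ : Module.Dual F L), bm L x φ ≠ 0 := by
  let b := Module.finBasis F L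
  let i : Fin (Module.finrank F L) := ⟨0, by omega⟩
  let j : Fin (Module.finrank F L) := ⟨1, by omega⟩
  refine ⟨b i, b.coord i, fun h => ?_⟩
  rw [bm_apply, Submodule.mkQ_apply, Submodule.Quotient.mk_eq_zero] at h
  obtain ⟨c, hc⟩ := h
  have hij : i ≠ j := by
    intro h
    have := congrArg Fin.val h
    simp [i, j] at this
  have h3 := LinearMap.congr_fun hc (b j)
  have h4 := LinearMap.congr_fun hc (b i)
  have h3' : c * b j = b.coord i (b j) • b i := h3
  have h4' : c * b i = b.coord i (b i) • b i := h4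
  simp only [Module.Basis.coord_apply, Module.Basis.repr_self, Finsupp.single_apply] at h3' h4'
  rw [if_neg (Ne.symm hij), zero_smul] at h3'
  rw [if_pos trivial, one_smul] at h4'
  have h5 : c = 0 := by
    rcases mul_eq_zero.1 h3' with h | h
    · exact h
    · exact absurd h (b.ne_zero j)
  rw [h5, zero_mul] at h4'
  exact b.ne_zero i h4'.symm

theorem not_levi (h2 : 1 < Module.finrank F L) [FiniteDimensional F L] :
    ¬ ∃ (I : Type) (φ : (Subgroup.normalClosure ({tt L} : Set (G L))) →* (I → H)),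
      Function.Injective φ := by
  rintro ⟨I, Φ, hΦ⟩
  obtain ⟨x, φ, hx⟩ := exists_bm_ne_zero (L := L) h2
  have hmem : W L (bm L x φ) ∈ NN L := by
    have h0 : W L (bm L x φ) = (Y L φ * X L x)⁻¹ * (X L x * Y L φ) := by
      rw [XY, inv_mul_cancel_left]
    rw [h0]
    exact Subgroup.mul_mem _ (Subgroup.inv_mem _ (Subgroup.mul_mem _ (Y_mem L φ) (X_mem L x)))
      (Subgroup.mul_mem _ (X_mem L x) (Y_mem L φ))
  have h1 : Φ ⟨W L (bm L x φ), hmem⟩ = 1 := by
    funext i
    let f : NN L →* H := (Pi.evalMonoidHom (fun _ : I => H) i).comp Φ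
    obtain ⟨h3, h4⟩ := P_bm f x φ
    rw [vanish f x φ] at h4
    exact h4
  have h5 := (injective_iff_map_eq_one Φ).1 hΦ _ h1
  have h6 : W L (bm L x φ) = 1 := congrArg Subtype.val h5
  exact hx (congrArg Tri.z h6)

end big


theorem main :
    ¬ (∀ (H : Type) [Group H] [Finite H],
      ∃ (k : ℕ) (n : Fin k → ℕ) (prem : (i : Fin k) → List (FreeGroup (Fin (n i))))
        (concl : (i : Fin k) → FreeGroup (Fin (n i))),
        ∀ (G : Type) [Group G],
          (∀ a : G, ∃ (I : Type) (φ : (Subgroup.normalClosure ({a} : Set G)) →* (I → H)),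
              Function.Injective φ) ↔
          (∀ i : Fin k, ∀ f : Fin (n i) → G,
              (∀ p ∈ prem i, FreeGroup.lift f p = 1) → FreeGroup.lift f (concl i) = 1)) := by
  intro hall
  obtain ⟨k, n, prem, concl, h⟩ := hall H
  let N : ℕ := 2 + ∑ i, n i
  let L := GaloisField 3 N
  have hN : Module.finrank F L = N := GaloisField.finrank 3 (by omega)
  have h1 := (h (G L)).2 (by
    intro i
    refine quasi L (n := n i) ?_ (prem i) (concl i) ?_
    · rw [hN]
      have := Finset.single_le_sum (f := n) (fun _ _ => Nat.zero_le _) (Finset.mem_univ i)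
      omega
    · intro U hU
      exact (h (sub L U)).1 (sub_levi L hU) i)
  exact not_levi (by rw [hN]; omega) (h1 (tt L))

end Pool.Agent.H912R2.Levi
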